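import Pool.Agent.Work.MP_9fe036_gt.Final2

/-!
# MP_9fe036_gt, Q1: the answer is no

There are topological spheres `S₁`, `S₂` in `ℝ³` with `S₂` inside `S₁` such that no topological sphere
`S₃` lies inside `S₁` and has `S₂` inside it.
-/

namespace Pool.Agent.Results.MP_9fe036_gt.NoSeparatingSphere

/-- Euclidean three-space. -/
abbrev E3 : Type := EuclideanSpace ℝ (Fin 3)

/-- A topological sphere: a subset of `ℝ³` homeomorphic to the round unit sphere. -/
def IsTopSphere (S : Set E3) : Prop := Nonempty (Metric.sphere (0 : E3) 1 ≃ₜ S)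

/-- The inside of `S`: the points off `S` whose connected component in the complement of `S` is
bounded. For a topological sphere this is the bounded component (Jordan-Brouwer). -/
def inside (S : Set E3) : Set E3 :=
  {x | x ∉ S ∧ Bornology.IsBounded (connectedComponentIn Sᶜ x)}

theorem bounded_image {X Y : Type*} [MetricSpace X] [ProperSpace X] [MetricSpace Y] (f : X ≃ₜ Y)
    {A : Set X} (hA : Bornology.IsBounded A) : Bornology.IsBounded (f '' A) := by
  rcases A.eq_empty_or_nonempty with rfl | ⟨a, ha⟩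
  · simp
  · obtain ⟨r, hr⟩ := hA.subset_closedBall a
    exact ((isCompact_closedBall a r).image f.continuous).isBounded.subset (Set.image_mono hr)

open Sph9fe in
theorem inside_iff (S : Set E3) (x : E3) : x ∈ inside S ↔ Lin x ∈ Int3 (Lin '' S) := by
  have hc : (Lin '' S)ᶜ = Lin '' Sᶜ := (Set.image_compl_eq Lin.bijective).symm
  have hmem : Lin x ∈ Lin '' S ↔ x ∈ S := Lin.injective.mem_set_image
  constructor
  · rintro ⟨h1, h2⟩
    refine ⟨fun h => h1 (hmem.1 h), ?_⟩
    rw [hc, ← Lin.image_connectedComponentIn (show x ∈ Sᶜ from h1)]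
    exact bounded_image Lin h2
  · rintro ⟨h1, h2⟩
    have h1' : x ∉ S := fun h => h1 (hmem.2 h)
    refine ⟨h1', ?_⟩
    rw [hc, ← Lin.image_connectedComponentIn (show x ∈ Sᶜ from h1')] at h2
    have := bounded_image Lin.symm h2
    rw [Set.image_image] at this
    simpa using this

open Sph9fe in
theorem isTopSphere_symm {T : Set R3} (h : IsSph T) : IsTopSphere (Lin.symm '' T) := by
  obtain ⟨e⟩ := h
  exact ⟨e.trans (Lin.symm.image T)⟩

open Sph9fe in
theorem isSph_image {S : Set E3} (h : IsTopSphere S) : IsSph (Lin '' S) := by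
  obtain ⟨e⟩ := h
  exact ⟨e.trans (Lin.image S)⟩

open Sph9fe in
/-- **The answer to Q1 is no**: there are nested topological spheres in `ℝ³` with no topological
sphere between them. -/
theorem result : ∃ S₁ S₂ : Set E3, IsTopSphere S₁ ∧ IsTopSphere S₂ ∧ S₂ ⊆ inside S₁ ∧
    ∀ S₃ : Set E3, IsTopSphere S₃ → ¬ (S₂ ⊆ inside S₃ ∧ S₃ ⊆ inside S₁) := by
  have hL : ∀ T : Set R3, Lin '' (Lin.symm '' T) = T := fun T => by
    rw [Set.image_image]; simp
  refine ⟨Lin.symm '' Sone, Lin.symm '' Stwo, isTopSphere_symm isSph_Sone,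
    isTopSphere_symm isSph_Stwo, ?_, ?_⟩
  · rintro _ ⟨p, hp, rfl⟩
    rw [inside_iff, hL, Lin.apply_symm_apply]
    exact Stwo_Int hp
  · rintro S₃ h₃ ⟨h23, h31⟩
    refine no_middle (isSph_image h₃) ?_ ?_
    · intro p hp
      have := (inside_iff S₃ (Lin.symm p)).1 (h23 ⟨p, hp, rfl⟩)
      rwa [Lin.apply_symm_apply] at this
    · rintro _ ⟨x, hx, rfl⟩
      have := (inside_iff _ x).1 (h31 hx)
      rwa [hL] at this

end Pool.Agent.Results.MP_9fe036_gt.NoSeparatingSphere
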